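import Pool.Agent.Lib.MP_6d445e_gt.Iface

/-! # ITP: basic facts on interpretations -/

universe u

open Cardinal Filter

namespace Pool.Agent.Lib.MP_6d445e_gt.H82

open Pool.Agent.Lib.MP_100a6c_lc
open Pool.Agent.Lib.MP_e6fef2_lc

section

variable {A C : Type u} [CompleteBooleanAlgebra A] [CompleteBooleanAlgebra C]

omit [CompleteBooleanAlgebra A] in
theorem mem_agr (f : A → C) (z : ℕ → A) (x : ℕ → C) (k : ℕ) (h : Ult C) :
    agr f z x k ∈ h ↔ ∀ n < k, (f (z n) ∈ h ↔ x n ∈ h) := by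
  have h1 : agr f z x k = ⨅ n ∈ Finset.range k, (f (z n) ⊓ x n) ⊔ ((f (z n))ᶜ ⊓ (x n)ᶜ) := by
    simp only [agr, Finset.mem_range]
  rw [h1, h.mem_finset_iInf]
  refine forall_congr' fun n => ?_
  rw [Finset.mem_range, h.mem_sup, h.mem_inf, h.mem_inf, h.mem_compl, h.mem_compl]
  tauto

omit [CompleteBooleanAlgebra A] in
theorem agr_anti (f : A → C) (z : ℕ → A) (x : ℕ → C) {k k' : ℕ} (hk : k ≤ k') :
    agr f z x k' ≤ agr f z x k :=
  le_iInf₂ fun n hn => (iInf_le _ n).trans (iInf_le _ (lt_of_lt_of_le hn hk))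

theorem addM_prj {f : A → C} (hf : IsCE f) : AddM f (prj f) := by
  obtain ⟨-, -, -, -, -, -, -, -, -, -, h1, -, h2, -, -, -, h3, -⟩ := all_alg A C f hf
  refine ⟨fun c c' => ?_, h3⟩
  refine le_antisymm ?_ (sup_le (h2 _ _ le_sup_left) (h2 _ _ le_sup_right))
  rw [h1]
  refine sup_le ?_ ?_
  · rw [← h1]; exact le_sup_left
  · rw [← h1]; exact le_sup_right

theorem addM_bot {f : A → C} {π : C → A} (hπ : AddM f π) : π ⊥ = ⊥ := by
  have := hπ.lin ⊥ ⊥
  rwa [bot_inf_eq, inf_bot_eq] at this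

theorem addM_mono {f : A → C} {π : C → A} (hπ : AddM f π) {c c' : C} (h : c ≤ c') :
    π c ≤ π c' := by
  have h1 := hπ.sup c c'
  rw [sup_eq_right.2 h] at h1
  rw [h1]
  exact le_sup_left

end

theorem itp (hS : SlaStatement.{u}) : ItpStatement.{u} := by
  intro A C _ _ f hf
  refine ⟨mem_agr f, fun z x k k' hk => agr_anti f z x hk, addM_prj hf, addM_prj hf, ?_⟩
  intro π hπ
  refine ⟨addM_bot hπ, fun c c' h => addM_mono hπ h, ?_, ?_, ?_, ?_, ?_, ?_, ?_⟩
  · intro c x z
    exact (iInf_le _ 0).trans (addM_mono hπ inf_le_left)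
  · intro c c' x z hc
    exact iInf_mono fun k => addM_mono hπ (inf_le_inf_right _ hc)
  · intro c x z a
    unfold MP_6d445e_gt.itp
    rw [iInf_inf]
    refine iInf_congr fun k => ?_
    rw [inf_right_comm, hπ.lin]
  · intro c x z y k hc
    refine (iInf_le _ k).trans ?_
    have h1 : c ⊓ agr f z x k ≤ f (agr (fun a : A => a) y z k) := by
      refine le_of_ae (Filter.Eventually.of_forall fun h hh => ?_)
      rw [h.mem_inf] at hh
      have h2 := (mem_agr f y x k h).1 (h.mono hc hh.1)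
      have h3 := (mem_agr f z x k h).1 hh.2
      have h4 : agr (fun a : A => a) y z k ∈ h.pull hf := by
        rw [mem_agr]
        intro n hn
        rw [Ult.mem_pull, Ult.mem_pull, h2 n hn, h3 n hn]
      exact h4
    have h5 := hπ.lin (c ⊓ agr f z x k) (agr (fun a : A => a) y z k)
    rw [inf_eq_left.2 h1] at h5
    rw [h5]
    exact inf_le_right
  · intro c x z
    unfold MP_6d445e_gt.itp
    refine iInf_congr fun k => ?_
    have h1 : agr f (cpl z) (cpl x) k = agr f z x k := by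
      unfold agr cpl
      simp only [hf.compl, compl_compl, sup_comm]
    rw [h1]
  · intro c x z z' a hz
    unfold MP_6d445e_gt.itp
    rw [inf_iInf, inf_iInf]
    refine iInf_congr fun k => ?_
    rw [inf_comm a, inf_comm a, ← hπ.lin, ← hπ.lin, inf_assoc, inf_assoc]
    congr 2
    refine eq_of_ae (Filter.Eventually.of_forall fun h => ?_)
    rw [h.mem_inf, h.mem_inf, mem_agr, mem_agr]
    refine and_congr_left fun ha => ?_
    refine forall_congr' fun n => forall_congr' fun _ => ?_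
    have h1 : z n ∈ h.pull hf ↔ z' n ∈ h.pull hf := by
      have h2 : a ∈ h.pull hf := ha
      have h3 : a ⊓ z n ∈ h.pull hf ↔ a ⊓ z' n ∈ h.pull hf := by rw [hz n]
      rw [Ult.mem_inf, Ult.mem_inf] at h3
      tauto
    rw [Ult.mem_pull, Ult.mem_pull] at h1
    rw [h1]
  · intro c x z r hx
    rw [(hS C).1] at hx
    rw [(hS A).1]
    intro p F hF
    have h0 := hx p F hF
    obtain ⟨K, hK⟩ : ∃ K, ∀ i ∈ F, Nat.pair p i < K :=
      ⟨(F.sup fun i => Nat.pair p i) + 1, fun i hi =>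
        Nat.lt_succ_of_le (Finset.le_sup (f := fun i => Nat.pair p i) hi)⟩
    have h1 : MP_6d445e_gt.itp f π c x z ≤ π (c ⊓ agr f z x K) := iInf_le _ K
    rw [eq_bot_iff]
    refine (inf_le_inf_right _ h1).trans ?_
    rw [← hπ.lin, ← addM_bot hπ, ← h0]
    refine addM_mono hπ (le_of_ae (Filter.Eventually.of_forall fun h hh => ?_))
    rw [h.mem_inf, h.mem_inf, mem_agr] at hh
    obtain ⟨⟨hc, hag⟩, hz⟩ := hh
    rw [h.mem_inf, h.mem_finset_iInf]
    refine ⟨hc, fun i hi => ?_⟩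
    rw [← hag _ (hK i hi)]
    have h2 : (⨅ i ∈ F, z (Nat.pair p i)) ∈ h.pull hf := hz
    rw [Ult.mem_finset_iInf] at h2
    exact h2 i hi

end Pool.Agent.Lib.MP_6d445e_gt.H82
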