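import Pool.Agent.Lib.MP_6d445e_gt.Iface

/-! # SLA: names of slaloms -/

universe u

open Cardinal Filter

namespace Pool.Agent.Lib.MP_6d445e_gt.H82

open Pool.Agent.Lib.MP_100a6c_lc
open Pool.Agent.Lib.MP_e6fef2_lc

section

variable {A : Type u} [CompleteBooleanAlgebra A]

theorem slOn_iff (r : ℕ → ℕ) (a : A) (x : ℕ → A) :
    SlOn r a x ↔ ∀ p, ∀ F : Finset ℕ, F.card = r p + 1 →
      a ⊓ ⨅ i ∈ F, x (Nat.pair p i) = ⊥ := by
  constructor
  · intro h p F hF
    by_contra hne
    obtain ⟨g, hg, h1⟩ := exists_of_ae h hne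
    rw [g.mem_inf, g.mem_finset_iInf] at hg
    have h2 := h1 hg.1 p
    have h3 : (F : Set ℕ) ⊆ {i | x (Nat.pair p i) ∈ g} := fun i hi => hg.2 i hi
    have h4 := (Set.encard_le_encard h3).trans h2
    rw [Set.encard_coe_eq_coe_finsetCard, hF] at h4
    have h5 : r p + 1 ≤ r p := by exact_mod_cast h4
    omega
  · intro h
    refine Filter.Eventually.of_forall fun g hg p => ?_
    by_contra hcon
    rw [not_le] at hcon
    have h1 : ((r p + 1 : ℕ) : ℕ∞) ≤ {i | x (Nat.pair p i) ∈ g}.encard := by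
      have := Order.add_one_le_of_lt hcon
      push_cast
      exact this
    obtain ⟨t, ht, h2⟩ := Set.exists_subset_encard_eq h1
    have hfin : t.Finite := Set.finite_of_encard_eq_coe h2
    have h3 := h p hfin.toFinset (by
      rw [hfin.encard_eq_coe_toFinset_card] at h2
      exact_mod_cast h2)
    have h4 : a ⊓ ⨅ i ∈ hfin.toFinset, x (Nat.pair p i) ∈ g := by
      rw [g.mem_inf, g.mem_finset_iInf]
      exact ⟨hg, fun i hi => ht (by simpa using hi)⟩
    rw [h3] at h4
    exact g.not_bot h4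

theorem sla : SlaStatement.{u} := by
  intro A _
  refine ⟨slOn_iff, ?_, ?_, ?_, ?_, ?_⟩
  · intro r r' a a' x hr ha h
    filter_upwards [h] with g hg hga p
    exact (hg (g.mono ha hga) p).trans (by exact_mod_cast hr p)
  · intro r r' a x x' h h'
    filter_upwards [h, h'] with g hg hg' hga p
    have h1 : {i | x (Nat.pair p i) ⊔ x' (Nat.pair p i) ∈ g} ⊆
        {i | x (Nat.pair p i) ∈ g} ∪ {i | x' (Nat.pair p i) ∈ g} := fun i hi => by
      simpa [g.mem_sup] using hi
    refine (Set.encard_le_encard h1).trans ((Set.encard_union_le _ _).trans ?_)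
    push_cast
    exact add_le_add (hg hga p) (hg' hga p)
  · intro r a x x' hx h
    filter_upwards [h] with g hg hga p
    refine (Set.encard_le_encard ?_).trans (hg hga p)
    intro i hi
    exact g.mono (hx _) (g.mem_inf.2 ⟨hga, hi⟩)
  · intro r a x s h
    have h1 : ∀ᶠ g in ae A, ∀ n, (⨆ k, ⨆ _ : k ≤ s n.unpair.1, x k n) ∈ g ↔
        ∃ k, (⨆ _ : k ≤ s n.unpair.1, x k n) ∈ g := ae_all fun n => ae_iSup _
    have h2 : ∀ᶠ g in ae A, ∀ n k, (⨆ _ : k ≤ s n.unpair.1, x k n) ∈ g ↔
        ∃ _ : k ≤ s n.unpair.1, x k n ∈ g := ae_all fun n => ae_all fun k => ae_iSup _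
    filter_upwards [h1, h2, ae_all h] with g hg1 hg2 hg hga p
    have h3 : {i | (⨆ k, ⨆ _ : k ≤ s (Nat.pair p i).unpair.1, x k (Nat.pair p i)) ∈ g} ⊆
        ⋃ k ∈ Finset.range (s p + 1), {i | x k (Nat.pair p i) ∈ g} := by
      intro i hi
      obtain ⟨k, hk⟩ := (hg1 _).1 hi
      obtain ⟨hk1, hk2⟩ := (hg2 _ _).1 hk
      simp only [Nat.unpair_pair] at hk1
      simp only [Set.mem_iUnion, Finset.mem_range]
      exact ⟨k, by omega, hk2⟩
    refine (Set.encard_le_encard h3).trans ((Finset.set_encard_biUnion_le _ _).trans ?_)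
    refine (Finset.sum_le_sum fun k _ => hg k hga p).trans ?_
    rw [Finset.sum_const, Finset.card_range, nsmul_eq_mul]
    push_cast
    exact le_rfl
  · intro T a r x h
    rw [slOn_iff]
    intro p F hF
    rw [iSup_inf_eq]
    simp only [iSup_eq_bot]
    exact fun t => (slOn_iff r (a t) x).1 (h t) p F hF

end

end Pool.Agent.Lib.MP_6d445e_gt.H82
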