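import Pool.Agent.Lib.MP_6d445e_gt.V.Iface3

/-! # VGR: the operations on names of elements of a group -/

universe u

open scoped symmDiff

namespace Pool.Agent.Lib.MP_6d445e_gt.H82

open Pool.Agent.Lib.MP_100a6c_lc
open Pool.Agent.Lib.MP_c5d73d_lc.F (isOm isInter)
open Pool.Agent.Lib.MP_e6fef2_lc (IsCE PE)
open BName
open H36 (om nn)

variable {B : Type u} [CompleteBooleanAlgebra B]

theorem op_eq (m x y z : BName B) : op (VB B) m x y z = bmem (opr (opr x y) z) m := by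
  unfold op
  simp only [isPair_eq, rel_eq]
  refine le_antisymm (iSup_le fun p => ?_) (le_iSup_of_le (opr x y) ?_)
  · exact (ext_opr_left z (ext_mem_left m)).of_le (x := p) inf_le_left inf_le_right
  · rw [beq_refl, top_inf_eq]

theorem ext_op1 (m y z : BName B) : Ext (fun x => op (VB B) m x y z) := by
  simp only [op_eq]
  exact ext_opr_left y (φ := fun a => bmem (opr a z) m) (ext_opr_left z (ext_mem_left m))

theorem ext_op2 (m x z : BName B) : Ext (fun y => op (VB B) m x y z) := by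
  simp only [op_eq]
  exact ext_opr_right x (φ := fun a => bmem (opr a z) m) (ext_opr_left z (ext_mem_left m))

theorem ext_op3 (m x y : BName B) : Ext (fun z => op (VB B) m x y z) := by
  simp only [op_eq]
  exact ext_opr_right (opr x y) (ext_mem_left m)

/-- Use of an implication. -/
theorem himp_apply {Γ Δ a b : B} (h : Γ ≤ a ⇨ b) (hΔ : Δ ≤ Γ) (ha : Δ ≤ a) : Δ ≤ b :=
  (le_inf (hΔ.trans h) ha).trans himp_inf_le

/-- The axioms of groups. -/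
structure GAx (Γ : B) (G m e : BName B) : Prop where
  dom : ∀ x y z Δ, Δ ≤ Γ → Δ ≤ op (VB B) m x y z → Δ ≤ bmem x G ∧ Δ ≤ bmem y G ∧ Δ ≤ bmem z G
  tot : ∀ x y Δ, Δ ≤ Γ → Δ ≤ bmem x G → Δ ≤ bmem y G → Δ ≤ ⨆ z, op (VB B) m x y z
  fn : ∀ x y z z' Δ, Δ ≤ Γ → Δ ≤ op (VB B) m x y z → Δ ≤ op (VB B) m x y z' → Δ ≤ beq z z'
  assoc : ∀ x y z a b c d Δ, Δ ≤ Γ → Δ ≤ op (VB B) m x y a → Δ ≤ op (VB B) m a z c →
    Δ ≤ op (VB B) m y z b → Δ ≤ op (VB B) m x b d → Δ ≤ beq c d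
  e_mem : Γ ≤ bmem e G
  one_mul : ∀ x Δ, Δ ≤ Γ → Δ ≤ bmem x G → Δ ≤ op (VB B) m e x x
  mul_one : ∀ x Δ, Δ ≤ Γ → Δ ≤ bmem x G → Δ ≤ op (VB B) m x e x
  inv : ∀ x Δ, Δ ≤ Γ → Δ ≤ bmem x G → Δ ≤ ⨆ y, op (VB B) m x y e ⊓ op (VB B) m y x e

theorem gAx {Γ : B} {G m e : BName B} (h : Γ ≤ isGrp (VB B) G m e) : GAx Γ G m e := by
  unfold isGrp at h
  simp only [le_inf_iff] at h
  obtain ⟨⟨⟨⟨⟨⟨h1, h2⟩, h3⟩, h4⟩, h5⟩, h6⟩, h7⟩ := h
  simp only [le_iInf_iff] at h1 h2 h3 h4 h6 h7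
  refine ⟨?_, ?_, ?_, ?_, h5, ?_, ?_, ?_⟩
  · intro x y z Δ hΔ h
    have := himp_apply (h1 x y z) hΔ h
    exact ⟨this.trans (inf_le_left.trans inf_le_left), this.trans (inf_le_left.trans inf_le_right),
      this.trans inf_le_right⟩
  · intro x y Δ hΔ hx hy
    exact himp_apply (h2 x y) hΔ (le_inf hx hy)
  · intro x y z z' Δ hΔ hx hy
    exact himp_apply (h3 x y z z') hΔ (le_inf hx hy)
  · intro x y z a b c d Δ hΔ h1 h2 h3 h5
    exact himp_apply (h4 x y z a b c d) hΔ (le_inf (le_inf (le_inf h1 h2) h3) h5)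
  · intro x Δ hΔ hx
    exact (himp_apply (h6 x) hΔ hx).trans inf_le_left
  · intro x Δ hΔ hx
    exact (himp_apply (h6 x) hΔ hx).trans inf_le_right
  · intro x Δ hΔ hx
    exact himp_apply (h7 x) hΔ hx

theorem vgr : VgrStatement.{u} := by
  intro B _ Γ G m e hG
  have ax := gAx hG
  have hmul : ∀ x y : Lm Γ G, ∃ z : Lm Γ G, Γ ≤ op (VB B) m x.1 y.1 z.1 := by
    intro x y
    obtain ⟨z, hz⟩ := exists_wit (ext_op3 m x.1 y.1) (ax.tot x.1 y.1 Γ le_rfl x.2 y.2)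
    exact ⟨⟨z, (ax.dom _ _ _ Γ le_rfl hz).2.2⟩, hz⟩
  have hinv : ∀ x : Lm Γ G, ∃ y : Lm Γ G, Γ ≤ op (VB B) m x.1 y.1 e ∧
      Γ ≤ op (VB B) m y.1 x.1 e := by
    intro x
    obtain ⟨y, hy⟩ := exists_wit ((ext_op2 m x.1 e).inf (ext_op1 m x.1 e))
      (ax.inv x.1 Γ le_rfl x.2)
    have h1 := hy.trans inf_le_left
    exact ⟨⟨y, (ax.dom _ _ _ Γ le_rfl h1).2.1⟩, h1, hy.trans inf_le_right⟩
  choose mul hmul using hmul
  choose inv hinv using hinv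
  refine ⟨⟨fun x y => beq x.1 y.1, mul, inv, ⟨e, ax.e_mem⟩⟩, ?_⟩
  refine ⟨fun x y => rfl, rfl, ?_, fun x => (hinv x).1, ?_⟩
  · intro x y z
    refine le_antisymm (le_inf inf_le_left ?_) (le_inf inf_le_left ?_)
    · exact ax.fn x.1 y.1 _ _ _ inf_le_left inf_le_right (inf_le_left.trans (hmul x y))
    · exact (ext_op3 m x.1 y.1).of_le' inf_le_right (inf_le_left.trans (hmul x y))
  · refine ⟨?_, ?_, ?_, ?_, ?_, ?_, ?_⟩
    · intro x
      change Γ ≤ beq x.1 x.1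
      rw [beq_refl]
      exact le_top
    · intro x y
      change Γ ⊓ beq x.1 y.1 ≤ beq y.1 x.1
      rw [beq_symm y.1]
      exact inf_le_right
    · intro x y z
      change Γ ⊓ beq x.1 y.1 ⊓ beq y.1 z.1 ≤ beq x.1 z.1
      exact (inf_le_inf_right _ inf_le_right).trans (beq_trans _ _ _)
    · intro x x' y y'
      change Γ ⊓ beq x.1 x'.1 ⊓ beq y.1 y'.1 ≤ beq (mul x y).1 (mul x' y').1
      have h1 : Γ ⊓ beq x.1 x'.1 ⊓ beq y.1 y'.1 ≤ Γ := inf_le_left.trans inf_le_left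
      refine ax.fn x'.1 y'.1 _ _ _ h1 ?_ (h1.trans (hmul x' y'))
      refine (ext_op1 m _ _).of_le (x := x.1) (inf_le_left.trans inf_le_right) ?_
      exact (ext_op2 m _ _).of_le (x := y.1) inf_le_right (h1.trans (hmul x y))
    · intro x y z
      exact ax.assoc x.1 y.1 z.1 (mul x y).1 (mul y z).1 _ _ Γ le_rfl (hmul _ _) (hmul _ _)
        (hmul _ _) (hmul _ _)
    · intro x
      exact ax.fn e x.1 _ _ Γ le_rfl (hmul ⟨e, ax.e_mem⟩ x) (ax.one_mul x.1 Γ le_rfl x.2)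
    · intro x
      exact ax.fn (inv x).1 x.1 _ _ Γ le_rfl (hmul (inv x) x) (hinv x).2

end Pool.Agent.Lib.MP_6d445e_gt.H82
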