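import Pool.Agent.Lib.MP_6d445e_gt.H82.Vgr

/-! # VNB: a decreasing base of neighbourhoods -/

universe u

open scoped symmDiff
open Cardinal

namespace Pool.Agent.Lib.MP_6d445e_gt.H82

open Pool.Agent.Lib.MP_100a6c_lc
open Pool.Agent.Lib.MP_c5d73d_lc.F (isOm isInter)
open Pool.Agent.Lib.MP_e6fef2_lc (IsCE PE)
open BName
open H36 (om nn)

variable {B : Type u} [CompleteBooleanAlgebra B]

/-- Mixing two names. -/
theorem mix2 (a : B) (x y : BName B) : ∃ τ, a ≤ beq τ x ∧ aᶜ ≤ beq τ y := by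
  obtain ⟨τ, hτ⟩ := mix (ι := ULift Bool) (fun t => if t.down then a else aᶜ)
    (fun t => if t.down then x else y) (by
      rintro ⟨_ | _⟩ ⟨_ | _⟩ <;> simp [beq_refl])
  exact ⟨τ, by simpa using hτ ⟨true⟩, by simpa using hτ ⟨false⟩⟩

theorem le_of_cases {Γ a c : B} (h1 : Γ ⊓ a ≤ c) (h2 : Γ ⊓ aᶜ ≤ c) : Γ ≤ c := by
  have e : Γ = (Γ ⊓ a) ⊔ (Γ ⊓ aᶜ) := by rw [← inf_sup_left, sup_compl_eq_top, inf_top_eq]
  rw [e]
  exact sup_le h1 h2

/-- Enumeration of a countable name. -/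
theorem exists_enum_nat {Γ : B} {b : BName B} (h : Γ ≤ (VB B).leCard b (check om)) :
    ∃ C : ℕ → BName B, ∀ z, Γ ⊓ bmem z b ≤ ⨆ k, beq z (C k) := by
  have e : om.{u} = (ℵ₀ : Cardinal.{u}).ord.toZFSet := by
    rw [om, Cardinal.ord_aleph0]
  rw [e] at h
  obtain ⟨t, ht⟩ := exists_enum_type (K := ULift.{u} ℕ) (c := ℵ₀) (by simp) h
  refine ⟨fun k => t ⟨k⟩, fun z => (ht z).trans (iSup_le fun k => ?_)⟩
  exact le_iSup (fun k : ℕ => beq z (t ⟨k⟩)) k.down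

/-- A countable base. -/
theorem exists_base {Γ : B} {t : BName B} (h : Γ ≤ isSC (VB B) (check om) t) :
    ∃ b : BName B, Γ ≤ (VB B).sub b t ∧ (∃ C : ℕ → BName B, ∀ z, Γ ⊓ bmem z b ≤ ⨆ k, beq z (C k)) ∧
      ∀ A x, Γ ⊓ bmem A t ⊓ bmem x A ≤ ⨆ C, bmem C b ⊓ bmem x C ⊓ (VB B).sub C A := by
  unfold isSC at h
  obtain ⟨b, hb⟩ := exists_wit (((ext_sub_left t).inf (ext_leCard_left (check om))).inf
    (Ext.iInf fun A => Ext.iInf fun x => (Ext.const _).himp (Ext.iSup fun C =>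
      ((ext_mem_right C).inf (Ext.const (bmem x C))).inf (Ext.const ((VB B).sub C A))))) h
  refine ⟨b, hb.trans (inf_le_left.trans inf_le_left),
    exists_enum_nat (hb.trans (inf_le_left.trans inf_le_right)), ?_⟩
  intro A x
  have h1 := hb.trans inf_le_right
  simp only [le_iInf_iff] at h1
  exact himp_apply (h1 A x) (inf_le_left.trans inf_le_left)
    (le_inf (inf_le_left.trans inf_le_right) inf_le_right)

/-- Intersections of neighbourhoods. -/
theorem nb_inter {Γ : B} {G t e A A' : BName B} (ht : Γ ≤ isTopo (VB B) G t)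
    (hA : Γ ≤ isNb (VB B) t e A) (hA' : Γ ≤ isNb (VB B) t e A') :
    Γ ≤ isNb (VB B) t e (sepn A fun x => bmem x A') := by
  have hm : ∀ z, bmem z (sepn A fun x => bmem x A') = bmem z A ⊓ bmem z A' :=
    fun z => mem_sepn (ext_mem_left A') A z
  unfold isTopo at ht
  simp only [le_inf_iff, le_iInf_iff] at ht
  have h3 := ht.1.2 A A' (sepn A fun x => bmem x A')
  refine le_inf ?_ ?_
  · refine himp_apply h3 le_rfl (le_inf (le_inf (hA.trans inf_le_left) (hA'.trans inf_le_left)) ?_)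
    refine le_iInf fun z => ?_
    simp only [VB_mem]
    rw [hm z, bihimp_self]
    exact le_top
  · rw [VB_mem, hm e]
    exact le_inf (hA.trans inf_le_right) (hA'.trans inf_le_right)

theorem ext_isNb (t e : BName B) : Ext (fun A => isNb (VB B) t e A) :=
  (ext_mem_left t).inf (ext_mem_right e)

/-- Continuity of the multiplication. -/
theorem cmul {Γ : B} {m t x y z A : BName B} (h : Γ ≤ isCMul (VB B) m t)
    (hop : Γ ≤ op (VB B) m x y z) (hA : Γ ≤ bmem A t) (hz : Γ ≤ bmem z A) :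
    ∃ C D : BName B, Γ ≤ bmem C t ∧ Γ ≤ bmem D t ∧ Γ ≤ bmem x C ∧ Γ ≤ bmem y D ∧
      ∀ x' y' z' Δ, Δ ≤ Γ → Δ ≤ bmem x' C → Δ ≤ bmem y' D → Δ ≤ op (VB B) m x' y' z' →
        Δ ≤ bmem z' A := by
  unfold isCMul at h
  simp only [le_iInf_iff] at h
  have h1 := himp_apply (h x y z A) le_rfl (le_inf (le_inf hop hA) hz)
  obtain ⟨C, hC⟩ := exists_wit (Ext.iSup fun D => ((((ext_mem_left t).inf (Ext.const _)).inf
    (ext_mem_right x)).inf (Ext.const _)).inf (Ext.iInf fun x' => Ext.iInf fun y' =>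
      Ext.iInf fun z' => (((ext_mem_right x').inf (Ext.const _)).inf (Ext.const _)).himp
        (Ext.const _))) h1
  obtain ⟨D, hD⟩ := exists_wit (((((Ext.const _).inf (ext_mem_left t)).inf
    (Ext.const _)).inf (ext_mem_right y)).inf (Ext.iInf fun x' => Ext.iInf fun y' =>
      Ext.iInf fun z' => (((Ext.const _).inf (ext_mem_right y')).inf (Ext.const _)).himp
        (Ext.const _))) hC
  simp only [le_inf_iff, le_iInf_iff] at hD
  obtain ⟨⟨⟨⟨h2, h3⟩, h4⟩, h5⟩, h6⟩ := hD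
  refine ⟨C, D, h2, h3, h4, h5, ?_⟩
  intro x' y' z' Δ hΔ hx hy hz
  exact himp_apply (h6 x' y' z') hΔ (le_inf (le_inf hx hy) hz)

/-- Continuity of the inversion. -/
theorem cinv {Γ : B} {m e t x y A : BName B} (h : Γ ≤ isCInv (VB B) m e t)
    (hop : Γ ≤ op (VB B) m x y e) (hA : Γ ≤ bmem A t) (hy : Γ ≤ bmem y A) :
    ∃ C : BName B, Γ ≤ bmem C t ∧ Γ ≤ bmem x C ∧
      ∀ x' y' Δ, Δ ≤ Γ → Δ ≤ bmem x' C → Δ ≤ op (VB B) m x' y' e → Δ ≤ bmem y' A := by
  unfold isCInv at h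
  simp only [le_iInf_iff] at h
  have h1 := himp_apply (h x y A) le_rfl (le_inf (le_inf hop hA) hy)
  obtain ⟨C, hC⟩ := exists_wit (((ext_mem_left t).inf (ext_mem_right x)).inf
    (Ext.iInf fun x' => Ext.iInf fun y' => ((ext_mem_right x').inf (Ext.const _)).himp
      (Ext.const _))) h1
  simp only [le_inf_iff, le_iInf_iff] at hC
  obtain ⟨⟨h2, h3⟩, h4⟩ := hC
  refine ⟨C, h2, h3, ?_⟩
  intro x' y' Δ hΔ hx hy
  exact himp_apply (h4 x' y') hΔ (le_inf hx hy)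

theorem vnb : VnbStatement.{u} := by
  intro B _ Γ G m e t D hV hD V hVn
  have ax := gAx hV.grp
  obtain ⟨b, hbt, ⟨C, hC⟩, hbase⟩ := exists_base hV.sc
  have hG : Γ ≤ isNb (VB B) t e G := by
    have := hV.top
    unfold isTopo at this
    simp only [le_inf_iff] at this
    exact le_inf this.1.1.2 ax.e_mem
  have hop : ∀ x y : Lm Γ G, Γ ≤ op (VB B) m x.1 y.1 (D.mul x y).1 := by
    intro x y
    have := hD.mul x y (D.mul x y).1
    rw [beq_refl, inf_top_eq] at this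
    exact inf_eq_left.1 this
  have hopi : ∀ x : Lm Γ G, Γ ≤ op (VB B) m x.1 (D.inv x).1 e := hD.inv
  -- the modified base
  have hC' : ∀ k, ∃ C', Γ ≤ isNb (VB B) t e C' ∧
      bmem (C k) t ⊓ bmem e (C k) ≤ beq C' (C k) := by
    intro k
    obtain ⟨τ, h1, h2⟩ := mix2 (bmem (C k) t ⊓ bmem e (C k)) (C k) G
    refine ⟨τ, ?_, h1⟩
    refine le_of_cases (a := bmem (C k) t ⊓ bmem e (C k)) ?_ ?_
    · exact (ext_isNb t e).of_le' (inf_le_right.trans h1) inf_le_right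
    · exact (ext_isNb t e).of_le' (inf_le_right.trans h2) (inf_le_left.trans hG)
  choose C' hC'1 hC'2 using hC'
  -- small neighbourhoods
  have hsm : ∀ A : {A : BName B // Γ ≤ isNb (VB B) t e A}, ∃ A' : {A : BName B // Γ ≤ isNb (VB B) t e A},
      ∀ x y : Lm Γ G, Γ ⊓ bmem x.1 A'.1 ⊓ bmem y.1 A'.1 ≤
        bmem (D.mul x y).1 A.1 ⊓ bmem (D.mul x (D.inv y)).1 A.1 := by
    rintro ⟨A, hA⟩
    obtain ⟨C1, C2, h1, h2, h3, h4, h5⟩ := cmul hV.cm (ax.one_mul e Γ le_rfl ax.e_mem)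
      (hA.trans inf_le_left) (hA.trans inf_le_right)
    obtain ⟨C3, h6, h7, h8⟩ := cinv hV.ci (ax.one_mul e Γ le_rfl ax.e_mem) h2 h4
    have n1 : Γ ≤ isNb (VB B) t e C1 := le_inf h1 h3
    have n2 : Γ ≤ isNb (VB B) t e C2 := le_inf h2 h4
    have n3 : Γ ≤ isNb (VB B) t e C3 := le_inf h6 h7
    have n12 := nb_inter hV.top n1 n2
    have n123 := nb_inter hV.top n12 n3
    refine ⟨⟨_, n123⟩, fun x y => ?_⟩
    have hm : ∀ z, bmem z (sepn (sepn C1 fun x => bmem x C2) fun x => bmem x C3) =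
        bmem z C1 ⊓ bmem z C2 ⊓ bmem z C3 := by
      intro z
      rw [mem_sepn (ext_mem_left C3), mem_sepn (ext_mem_left C2)]
    change Γ ⊓ bmem x.1 (sepn (sepn C1 fun x => bmem x C2) fun x => bmem x C3) ⊓
      bmem y.1 (sepn (sepn C1 fun x => bmem x C2) fun x => bmem x C3) ≤ _
    rw [hm, hm]
    set Δ := Γ ⊓ (bmem x.1 C1 ⊓ bmem x.1 C2 ⊓ bmem x.1 C3) ⊓
      (bmem y.1 C1 ⊓ bmem y.1 C2 ⊓ bmem y.1 C3) with hΔ
    have d0 : Δ ≤ Γ := inf_le_left.trans inf_le_left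
    have d1 : Δ ≤ bmem x.1 C1 :=
      inf_le_left.trans (inf_le_right.trans (inf_le_left.trans inf_le_left))
    have d2 : Δ ≤ bmem y.1 C2 := inf_le_right.trans (inf_le_left.trans inf_le_right)
    have d3 : Δ ≤ bmem y.1 C3 := inf_le_right.trans inf_le_right
    refine le_inf ?_ ?_
    · exact h5 x.1 y.1 _ Δ d0 d1 d2 (d0.trans (hop x y))
    · exact h5 x.1 (D.inv y).1 _ Δ d0 d1 (h8 y.1 (D.inv y).1 Δ d0 d3 (d0.trans (hopi y)))
        (d0.trans (hop x (D.inv y)))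
  choose F hF using hsm
  let I : {A : BName B // Γ ≤ isNb (VB B) t e A} → {A : BName B // Γ ≤ isNb (VB B) t e A} →
      {A : BName B // Γ ≤ isNb (VB B) t e A} :=
    fun A A' => ⟨_, nb_inter hV.top A.2 A'.2⟩
  have hI : ∀ A A' z, bmem z (I A A').1 = bmem z A.1 ⊓ bmem z A'.1 := fun A A' z =>
    mem_sepn (ext_mem_left A'.1) A.1 z
  let U : ℕ → {A : BName B // Γ ≤ isNb (VB B) t e A} := fun n =>
    Nat.rec (I ⟨V 0, hVn 0⟩ ⟨C' 0, hC'1 0⟩)
      (fun n A => I (F A) (I ⟨V (n + 1), hVn (n + 1)⟩ ⟨C' (n + 1), hC'1 (n + 1)⟩)) n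
  have hU0 : U 0 = I ⟨V 0, hVn 0⟩ ⟨C' 0, hC'1 0⟩ := rfl
  have hU1 : ∀ n, U (n + 1) =
      I (F (U n)) (I ⟨V (n + 1), hVn (n + 1)⟩ ⟨C' (n + 1), hC'1 (n + 1)⟩) := fun n => rfl
  have hUV : ∀ n z, bmem z (U n).1 ≤ bmem z (V n) ⊓ bmem z (C' n) := by
    intro n z
    cases n with
    | zero => rw [hU0, hI]
    | succ n => rw [hU1, hI, hI]; exact inf_le_right
  refine ⟨fun n => (U n).1, fun n => (U n).2, ?_, ?_, ?_⟩
  · intro n
    refine le_iInf fun z => ?_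
    rw [le_himp_iff]
    exact inf_le_right.trans ((hUV n z).trans inf_le_left)
  · intro n x y
    refine le_trans ?_ (hF (U n) x y)
    change Γ ⊓ bmem x.1 (U (n + 1)).1 ⊓ bmem y.1 (U (n + 1)).1 ≤ _
    rw [hU1]
    simp only [hI]
    exact inf_le_inf (inf_le_inf_left _ inf_le_left) inf_le_left
  · intro A
    have h1 : Γ ⊓ isNb (VB B) t e A ≤ ⨆ X, bmem X b ⊓ bmem e X ⊓ (VB B).sub X A := by
      refine le_trans (le_inf (le_inf inf_le_left ?_) ?_) (hbase A e)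
      · exact inf_le_right.trans inf_le_left
      · exact inf_le_right.trans inf_le_right
    refine (le_inf inf_le_left h1).trans ?_
    rw [inf_iSup_eq]
    refine iSup_le fun X => ?_
    set Δ := Γ ⊓ (bmem X b ⊓ bmem e X ⊓ (VB B).sub X A) with hΔ
    have d0 : Δ ≤ Γ := inf_le_left
    have d1 : Δ ≤ bmem X b := inf_le_right.trans (inf_le_left.trans inf_le_left)
    have d2 : Δ ≤ bmem e X := inf_le_right.trans (inf_le_left.trans inf_le_right)
    have d3 : Δ ≤ (VB B).sub X A := inf_le_right.trans inf_le_right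
    have d4 : Δ ≤ bmem X t := sub_apply hbt X d0 d1
    have d5 : Δ ≤ ⨆ k, beq X (C k) := (le_inf d0 d1).trans (hC X)
    refine (le_inf le_rfl d5).trans ?_
    rw [inf_iSup_eq]
    refine iSup_mono fun k => ?_
    have e0 : Δ ⊓ beq X (C k) ≤ beq X (C k) := inf_le_right
    have e1 : Δ ⊓ beq X (C k) ≤ bmem (C k) t :=
      (ext_mem_left t).of_le e0 (inf_le_left.trans d4)
    have e2 : Δ ⊓ beq X (C k) ≤ bmem e (C k) :=
      (ext_mem_right e).of_le e0 (inf_le_left.trans d2)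
    have e3 : Δ ⊓ beq X (C k) ≤ beq (C' k) (C k) := (le_inf e1 e2).trans (hC'2 k)
    have e4 : Δ ⊓ beq X (C k) ≤ beq (C' k) X :=
      (ext_eq_right (C' k)).of_le' (x := C k) e0 e3
    refine le_iInf fun z => ?_
    rw [le_himp_iff]
    have f1 : Δ ⊓ beq X (C k) ⊓ bmem z (U k).1 ≤ bmem z (C' k) :=
      inf_le_right.trans ((hUV k z).trans inf_le_right)
    have f2 : Δ ⊓ beq X (C k) ⊓ bmem z (U k).1 ≤ bmem z X :=
      (ext_mem_right z).of_le (inf_le_left.trans e4) f1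
    exact sub_apply (Γ := Δ) d3 z (inf_le_left.trans inf_le_left) f2

end Pool.Agent.Lib.MP_6d445e_gt.H82
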